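import Pool.Agent.Helper88.CG.Goals

/-! # Packet CG-VK: the large sieve inside classes modulo `k` -/

set_option autoImplicit false

open Finset Filter Topology

open scoped Classical

namespace Pool.Agent.Helper9.CG

open Pool.Agent.Helper88.CG

theorem mem_iff {k c₀ M N μ : ℕ} (hk : 1 ≤ k) (hc : c₀ < k) :
    μ + 1 ∈ Ioc ((M + k - c₀) / k) ((M + N + k - c₀) / k) ↔ c₀ + k * μ ∈ Ioc M (M + N) := by
  have hk0 : 0 < k := hk
  rw [Finset.mem_Ioc, Finset.mem_Ioc, Nat.div_lt_iff_lt_mul hk0, Nat.le_div_iff_mul_le hk0]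
  have e : (μ + 1) * k = k * μ + k := by ring
  rw [e]
  constructor
  · rintro ⟨h1, h2⟩
    constructor <;> omega
  · rintro ⟨h1, h2⟩
    constructor <;> omega

theorem reidx {k c₀ M N : ℕ} (hk : 1 ≤ k) (hc : c₀ < k) (g : ℕ → ℝ) :
    ∑ n ∈ (Ioc M (M + N)).filter (fun n => n % k = c₀), g n =
      ∑ ν ∈ Ioc ((M + k - c₀) / k) ((M + N + k - c₀) / k), g (c₀ + k * (ν - 1)) := by
  refine Finset.sum_nbij' (fun n => n / k + 1) (fun ν => c₀ + k * (ν - 1)) ?_ ?_ ?_ ?_ ?_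
  · intro n hn
    rw [Finset.mem_filter] at hn
    have e : c₀ + k * (n / k) = n := by rw [← hn.2]; exact Nat.mod_add_div n k
    rw [mem_iff hk hc, e]
    exact hn.1
  · intro ν hν
    have h1 : 1 ≤ ν := by
      rw [Finset.mem_Ioc] at hν
      exact lt_of_le_of_lt (Nat.zero_le _) hν.1
    obtain ⟨μ, rfl⟩ : ∃ μ, ν = μ + 1 := ⟨ν - 1, by omega⟩
    rw [mem_iff hk hc] at hν
    simp only [Nat.add_sub_cancel]
    rw [Finset.mem_filter]
    refine ⟨hν, ?_⟩
    rw [Nat.add_mul_mod_self_left, Nat.mod_eq_of_lt hc]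
  · intro n hn
    rw [Finset.mem_filter] at hn
    simp only [Nat.add_sub_cancel]
    rw [← hn.2]
    exact Nat.mod_add_div n k
  · intro ν hν
    have h1 : 1 ≤ ν := by
      rw [Finset.mem_Ioc] at hν
      exact lt_of_le_of_lt (Nat.zero_le _) hν.1
    obtain ⟨μ, rfl⟩ : ∃ μ, ν = μ + 1 := ⟨ν - 1, by omega⟩
    simp only [Nat.add_sub_cancel]
    rw [Nat.add_mul_div_left _ _ (by omega), Nat.div_eq_of_lt hc, zero_add]
  · intro n hn
    rw [Finset.mem_filter] at hn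
    simp only [Nat.add_sub_cancel]
    rw [← hn.2, Nat.mod_add_div n k]

theorem sum_shift (p : ℕ) (G : ℕ → ℝ) :
    ∑ q ∈ range p, G ((q + 1) % p) = ∑ c ∈ range p, G c := by
  have h1 : ∑ q ∈ range p, G ((q + 1) % p) + G (0 % p) = ∑ j ∈ range (p + 1), G (j % p) :=
    (Finset.sum_range_succ' (fun j => G (j % p)) p).symm
  rw [Finset.sum_range_succ, Nat.mod_self, Nat.zero_mod] at h1
  have h2 : ∑ j ∈ range p, G (j % p) = ∑ c ∈ range p, G c :=
    Finset.sum_congr rfl fun j hj => by rw [Nat.mod_eq_of_lt (Finset.mem_range.1 hj)]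
  linarith

theorem sum_digits (k p : ℕ) (hk : 1 ≤ k) (F : ℕ → ℝ) :
    ∑ c ∈ range (k * p), F c = ∑ c₀ ∈ range k, ∑ q ∈ range p, F (c₀ + k * q) := by
  rw [← Finset.sum_product']
  refine Finset.sum_nbij' (fun c => (c % k, c / k)) (fun d => d.1 + k * d.2) ?_ ?_ ?_ ?_ ?_
  · intro c hc
    rw [Finset.mem_range] at hc
    rw [Finset.mem_product, Finset.mem_range, Finset.mem_range]
    exact ⟨Nat.mod_lt _ (by omega), Nat.div_lt_of_lt_mul hc⟩
  · rintro ⟨c, q⟩ h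
    rw [Finset.mem_product, Finset.mem_range, Finset.mem_range] at h
    rw [Finset.mem_range]
    obtain ⟨h1, h2⟩ := h
    simp only at h1 h2 ⊢
    have h3 : k * (q + 1) ≤ k * p := Nat.mul_le_mul_left _ h2
    rw [mul_add, mul_one] at h3
    omega
  · intro c _
    exact Nat.mod_add_div c k
  · rintro ⟨c, q⟩ h
    rw [Finset.mem_product, Finset.mem_range, Finset.mem_range] at h
    obtain ⟨h1, h2⟩ := h
    simp only at h1 h2 ⊢
    rw [Nat.add_mul_mod_self_left, Nat.mod_eq_of_lt h1, Nat.add_mul_div_left _ _ (by omega),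
      Nat.div_eq_of_lt h1, zero_add]
  · intro c _
    simp only
    rw [Nat.mod_add_div c k]

theorem vk (h : StmtVA) : StmtVK := by
  obtain ⟨C, hC, hVA⟩ := h
  refine ⟨C, hC, fun k P N M f hk hP => ?_⟩
  obtain ⟨ν0, hν0⟩ : ∃ ν0 : ℕ → ℕ, ν0 = fun c₀ => (M + k - c₀) / k := ⟨_, rfl⟩
  obtain ⟨ν1, hν1⟩ : ∃ ν1 : ℕ → ℕ, ν1 = fun c₀ => (M + N + k - c₀) / k := ⟨_, rfl⟩
  obtain ⟨f', hf'⟩ : ∃ f' : ℕ → ℕ → ℝ, f' = fun c₀ ν => f (c₀ + k * (ν - 1)) := ⟨_, rfl⟩
  have hk0 : (0 : ℝ) < k := by exact_mod_cast hk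
  have hP0 : (0 : ℝ) < P := by exact_mod_cast hP
  have hlog : 0 ≤ Real.log P := Real.log_nonneg (by exact_mod_cast hP)
  have hle : ∀ c₀, ν0 c₀ ≤ ν1 c₀ := by
    intro c₀
    rw [hν0, hν1]
    exact Nat.div_le_div_right (by omega)
  have hlen : ∀ c₀ ∈ range k, ((ν1 c₀ - ν0 c₀ : ℕ) : ℝ) ≤ N / k + 1 := by
    intro c₀ hc₀
    rw [Finset.mem_range] at hc₀
    rw [Nat.cast_sub (hle c₀)]
    have h1 : (ν1 c₀ : ℝ) * k ≤ M + N + k - c₀ := by
      have h2 : ν1 c₀ * k ≤ M + N + k - c₀ := by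
        rw [hν1]
        exact Nat.div_mul_le_self _ _
      have h3 : ((M + N + k - c₀ : ℕ) : ℝ) = M + N + k - c₀ := by
        rw [Nat.cast_sub (by omega)]
        push_cast
        ring
      rw [← h3]
      exact_mod_cast h2
    have h4 : (M : ℝ) + k - c₀ < (ν0 c₀ + 1) * k := by
      have h2 : M + k - c₀ < (ν0 c₀ + 1) * k := by
        rw [hν0]
        exact Nat.lt_mul_of_div_lt (Nat.lt_succ_self _) (by omega)
      have h3 : ((M + k - c₀ : ℕ) : ℝ) = M + k - c₀ := by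
        rw [Nat.cast_sub (by omega)]
        push_cast
        ring
      rw [← h3]
      exact_mod_cast h2
    have h5 : ((ν1 c₀ : ℝ) - ν0 c₀) * k ≤ N + k := by nlinarith
    rw [show (N : ℝ) / k + 1 = (N + k) / k by field_simp, le_div_iff₀ hk0]
    exact h5
  have hva : ∀ c₀ ∈ range k, ∑ p ∈ (Ioc P (2 * P)).filter Nat.Prime, ∑ c ∈ range p,
      ((∑ n ∈ (Ioc (ν0 c₀) (ν1 c₀)).filter (fun n => n % p = c), f' c₀ n) -
        (∑ n ∈ Ioc (ν0 c₀) (ν1 c₀), f' c₀ n) / p) ^ 2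
      ≤ C / P * (N / k + 1 + P ^ 2 * (1 + Real.log P)) *
        ∑ n ∈ Ioc (ν0 c₀) (ν1 c₀), f' c₀ n ^ 2 := by
    intro c₀ hc₀
    have h1 := hVA P (ν1 c₀ - ν0 c₀) (ν0 c₀) (f' c₀) hP
    rw [Nat.add_sub_cancel' (hle c₀)] at h1
    refine h1.trans ?_
    have h2 := hlen c₀ hc₀
    gcongr
  -- one prime, one class modulo `k`
  have hcls : ∀ p : ℕ, 1 ≤ p → ∀ c₀ ∈ range k, ∑ q ∈ range p,
      ((∑ n ∈ (Ioc M (M + N)).filter (fun n => n % (k * p) = c₀ + k * q), f n) -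
        (∑ n ∈ (Ioc M (M + N)).filter (fun n => n % k = (c₀ + k * q) % k), f n) / p) ^ 2 =
      ∑ c ∈ range p, ((∑ n ∈ (Ioc (ν0 c₀) (ν1 c₀)).filter (fun n => n % p = c), f' c₀ n) -
        (∑ n ∈ Ioc (ν0 c₀) (ν1 c₀), f' c₀ n) / p) ^ 2 := by
    intro p hp c₀ hc₀
    rw [Finset.mem_range] at hc₀
    rw [← sum_shift p (fun c => ((∑ n ∈ (Ioc (ν0 c₀) (ν1 c₀)).filter (fun n => n % p = c),
      f' c₀ n) - (∑ n ∈ Ioc (ν0 c₀) (ν1 c₀), f' c₀ n) / p) ^ 2)]
    refine Finset.sum_congr rfl fun q hq => ?_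
    rw [Finset.mem_range] at hq
    have e1 : (c₀ + k * q) % k = c₀ := by
      rw [Nat.add_mul_mod_self_left, Nat.mod_eq_of_lt hc₀]
    have e2 : ∑ n ∈ (Ioc M (M + N)).filter (fun n => n % k = c₀), f n =
        ∑ n ∈ Ioc (ν0 c₀) (ν1 c₀), f' c₀ n := by
      rw [hν0, hν1, hf']
      exact reidx hk hc₀ f
    have e3 : ∑ n ∈ (Ioc M (M + N)).filter (fun n => n % (k * p) = c₀ + k * q), f n =
        ∑ n ∈ (Ioc (ν0 c₀) (ν1 c₀)).filter (fun n => n % p = (q + 1) % p), f' c₀ n := by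
      have g1 : (Ioc M (M + N)).filter (fun n => n % (k * p) = c₀ + k * q) =
          ((Ioc M (M + N)).filter (fun n => n % k = c₀)).filter (fun n => n / k % p = q) := by
        rw [Finset.filter_filter]
        refine Finset.filter_congr fun n _ => ?_
        rw [Nat.mod_mul]
        constructor
        · intro h
          have h1 : (n % k + k * (n / k % p)) % k = (c₀ + k * q) % k := by rw [h]
          rw [e1, Nat.add_mul_mod_self_left, Nat.mod_mod] at h1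
          refine ⟨h1, ?_⟩
          rw [h1] at h
          exact Nat.eq_of_mul_eq_mul_left (by omega) (Nat.add_left_cancel h)
        · rintro ⟨h1, h2⟩
          rw [h1, h2]
      rw [g1, Finset.sum_filter, reidx hk hc₀ (fun n => if n / k % p = q then f n else 0),
        Finset.sum_filter, hν0, hν1, hf']
      refine Finset.sum_congr rfl fun ν hν => ?_
      have h1 : 1 ≤ ν := by
        rw [Finset.mem_Ioc] at hν
        omega
      obtain ⟨μ, rfl⟩ : ∃ μ, ν = μ + 1 := ⟨ν - 1, by omega⟩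
      simp only [Nat.add_sub_cancel]
      rw [Nat.add_mul_div_left _ _ (by omega), Nat.div_eq_of_lt hc₀, zero_add]
      have h2 : (μ % p = q) ↔ ((μ + 1) % p = (q + 1) % p) := by
        constructor
        · intro h
          rw [← h]
          simp
        · intro h
          have h3 : μ ≡ q [MOD p] := Nat.ModEq.add_right_cancel' 1 h
          have h4 : μ % p = q % p := h3
          rw [h4, Nat.mod_eq_of_lt hq]
      simp only [h2]
    rw [e1, e2, e3]
  calc ∑ p ∈ prk k P, ∑ c ∈ range (k * p),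
        ((∑ n ∈ (Ioc M (M + N)).filter (fun n => n % (k * p) = c), f n) -
          (∑ n ∈ (Ioc M (M + N)).filter (fun n => n % k = c % k), f n) / p) ^ 2
      = ∑ p ∈ prk k P, ∑ c₀ ∈ range k, ∑ c ∈ range p,
          ((∑ n ∈ (Ioc (ν0 c₀) (ν1 c₀)).filter (fun n => n % p = c), f' c₀ n) -
            (∑ n ∈ Ioc (ν0 c₀) (ν1 c₀), f' c₀ n) / p) ^ 2 := by
        refine Finset.sum_congr rfl fun p hp => ?_
        unfold prk at hp
        rw [Finset.mem_filter, Finset.mem_Ioc] at hp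
        rw [sum_digits k p hk]
        exact Finset.sum_congr rfl fun c₀ hc₀ => hcls p (by omega) c₀ hc₀
    _ ≤ ∑ p ∈ (Ioc P (2 * P)).filter Nat.Prime, ∑ c₀ ∈ range k, ∑ c ∈ range p,
          ((∑ n ∈ (Ioc (ν0 c₀) (ν1 c₀)).filter (fun n => n % p = c), f' c₀ n) -
            (∑ n ∈ Ioc (ν0 c₀) (ν1 c₀), f' c₀ n) / p) ^ 2 := by
        refine Finset.sum_le_sum_of_subset_of_nonneg ?_ fun p _ _ =>
          Finset.sum_nonneg fun c₀ _ => Finset.sum_nonneg fun c _ => sq_nonneg _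
        intro p hp
        unfold prk at hp
        rw [Finset.mem_filter] at hp ⊢
        exact ⟨hp.1, hp.2.1⟩
    _ = ∑ c₀ ∈ range k, ∑ p ∈ (Ioc P (2 * P)).filter Nat.Prime, ∑ c ∈ range p,
          ((∑ n ∈ (Ioc (ν0 c₀) (ν1 c₀)).filter (fun n => n % p = c), f' c₀ n) -
            (∑ n ∈ Ioc (ν0 c₀) (ν1 c₀), f' c₀ n) / p) ^ 2 := Finset.sum_comm
    _ ≤ ∑ c₀ ∈ range k, C / P * (N / k + 1 + P ^ 2 * (1 + Real.log P)) *
          ∑ n ∈ Ioc (ν0 c₀) (ν1 c₀), f' c₀ n ^ 2 := Finset.sum_le_sum hva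
    _ = C / P * (N / k + 1 + P ^ 2 * (1 + Real.log P)) * ∑ n ∈ Ioc M (M + N), f n ^ 2 := by
        rw [← Finset.mul_sum]
        congr 1
        have h1 : ∀ c₀ ∈ range k, ∑ n ∈ Ioc (ν0 c₀) (ν1 c₀), f' c₀ n ^ 2 =
            ∑ n ∈ (Ioc M (M + N)).filter (fun n => n % k = c₀), f n ^ 2 := by
          intro c₀ hc₀
          rw [Finset.mem_range] at hc₀
          rw [hν0, hν1, hf']
          exact (reidx hk hc₀ (fun n => f n ^ 2)).symm
        rw [Finset.sum_congr rfl h1]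
        exact Finset.sum_fiberwise_of_maps_to (fun n _ => Finset.mem_range.2
          (Nat.mod_lt _ (by omega))) _

end Pool.Agent.Helper9.CG
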